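import Pool.Agent.BEL.StmtsP

/-!
# Squad BEL, row NSH: Nash's inequality from averages
-/

namespace Pool.Agent.BEL.H23

open Set Filter Topology MeasureTheory
open scoped InnerProductSpace ENNReal
open Pool.Agent.BE01

noncomputable section

/-- The inequality for real numbers. -/
theorem nash_real (δ C n g N : ℝ) (hδ : 0 < δ) (hC : 0 < C) (hn : 0 ≤ n) (hN : 0 ≤ N)
    (h : ∀ r : ℝ, 0 < r → n ≤ r * g + C * r ^ (-(δ / 2)) * N) :
    1 / (4 * (2 * C) ^ (4 / δ)) * n ^ (2 + 4 / δ) ≤ g ^ 2 * N ^ (4 / δ) := by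
  have h4 : 0 < 4 / δ := by positivity
  rcases hn.eq_or_lt with hn0 | hn0
  · rw [← hn0, Real.zero_rpow (by positivity), mul_zero]
    exact mul_nonneg (sq_nonneg g) (Real.rpow_nonneg hN _)
  have hN0 : 0 < N := by
    rcases hN.eq_or_lt with hN1 | hN1
    · exfalso
      have h1 : ∀ r : ℝ, 0 < r → n ≤ r * g := by
        intro r hr
        have := h r hr
        rw [← hN1, mul_zero, add_zero] at this
        exact this
      have h2 := h1 (n / (2 * (|g| + 1))) (by positivity)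
      have h3 : n / (2 * (|g| + 1)) * g ≤ n / 2 := by
        rw [div_mul_eq_mul_div, div_le_div_iff₀ (by positivity) (by norm_num)]
        nlinarith [le_abs_self g, abs_nonneg g]
      linarith
    · exact hN1
  set ρ : ℝ := 2 * C * N / n with hρ
  have hρ0 : 0 < ρ := by positivity
  have hr := h (ρ ^ (2 / δ)) (Real.rpow_pos_of_pos hρ0 _)
  have h1 : (ρ ^ (2 / δ)) ^ (-(δ / 2)) = ρ⁻¹ := by
    rw [← Real.rpow_mul hρ0.le]
    have : 2 / δ * -(δ / 2) = -1 := by field_simp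
    rw [this, Real.rpow_neg_one]
  have h2 : C * ρ⁻¹ * N = n / 2 := by
    rw [hρ]
    field_simp
  rw [h1, h2] at hr
  have h3 : n / 2 ≤ ρ ^ (2 / δ) * g := by linarith
  have h4' : (n / 2) ^ 2 ≤ (ρ ^ (2 / δ) * g) ^ 2 := by
    apply pow_le_pow_left₀ (by positivity) h3
  have h5 : (ρ ^ (2 / δ)) ^ 2 = ρ ^ (4 / δ) := by
    rw [← Real.rpow_natCast, ← Real.rpow_mul hρ0.le]
    congr 1
    push_cast
    ring
  rw [mul_pow, h5] at h4'
  have h6 : ρ ^ (4 / δ) * n ^ (4 / δ) = (2 * C) ^ (4 / δ) * N ^ (4 / δ) := by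
    rw [← Real.mul_rpow hρ0.le hn0.le, ← Real.mul_rpow (by positivity) hN0.le]
    congr 1
    rw [hρ]
    field_simp
  have h7 : n ^ (2 + 4 / δ) = n ^ 2 * n ^ (4 / δ) := by
    rw [Real.rpow_add hn0]
    norm_num
  have hc : 0 < (2 * C) ^ (4 / δ) := Real.rpow_pos_of_pos (by positivity) _
  have hnn : 0 < n ^ (4 / δ) := Real.rpow_pos_of_pos hn0 _
  rw [h7, one_div, inv_mul_le_iff₀ (by positivity)]
  have h8 : (n / 2) ^ 2 * n ^ (4 / δ) ≤ ρ ^ (4 / δ) * g ^ 2 * n ^ (4 / δ) :=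
    mul_le_mul_of_nonneg_right h4' hnn.le
  have h9 : ρ ^ (4 / δ) * g ^ 2 * n ^ (4 / δ) = g ^ 2 * ((2 * C) ^ (4 / δ) * N ^ (4 / δ)) := by
    rw [← h6]
    ring
  rw [h9] at h8
  nlinarith [h8]

theorem nsh (hA : AvoStmt) : NshStmt := by
  intro d Ω ι hd hΩ hE
  obtain ⟨C, hC, hA⟩ := hA d Ω ι hd hΩ hE
  have hd' : (0:ℝ) < d := by exact_mod_cast hd
  refine ⟨1 / (4 * (2 * C) ^ (4 / (d:ℝ))), by positivity, ?_⟩
  intro G
  apply nash_real (d:ℝ) C ‖ι G‖ ‖G‖ (∫ x, |ι G x| ∂(mu Ω)) hd' hC (norm_nonneg _)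
    (integral_nonneg fun x => abs_nonneg _)
  intro r hr
  obtain ⟨A, -, h2, h3⟩ := hA r hr
  calc ‖ι G‖ = ‖(ι G - A (ι G)) + A (ι G)‖ := by rw [sub_add_cancel]
    _ ≤ ‖ι G - A (ι G)‖ + ‖A (ι G)‖ := norm_add_le _ _
    _ ≤ r * ‖G‖ + C * r ^ (-((d:ℝ) / 2)) * ∫ x, |ι G x| ∂(mu Ω) := add_le_add (h3 G) (h2 (ι G))

end

end Pool.Agent.BEL.H23
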