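import Pool.Agent.BEL.StmtsU

/-!
# Squad BEL, row UGH: the damping term against a finite sum
-/

namespace Pool.Agent.BEL.H23

open Set Filter Topology MeasureTheory
open scoped InnerProductSpace ENNReal

noncomputable section

theorem ugh : UghStmt := by
  intro X _ μ a al b om ha hal hI
  have hfin : IsFiniteMeasure μ := hI.fin
  obtain ⟨p, hp, C0, hC0⟩ := hI.i4
  have hal2 : (0:ℝ) < al + 2 := by linarith
  have hal1 : (0:ℝ) < al + 1 := by linarith
  have hp0 : 0 < p := by linarith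
  have hqp : ENNReal.ofReal (al + 2) ≤ ENNReal.ofReal p := ENNReal.ofReal_le_ofReal hp.le
  have hq0 : ENNReal.ofReal (al + 2) ≠ 0 := by
    rw [Ne, ENNReal.ofReal_eq_zero, not_le]
    exact hal2
  have hconj : ((al + 2) / (al + 1)).HolderConjugate (al + 2) := by
    rw [Real.holderConjugate_iff]
    constructor
    · rw [lt_div_iff₀ hal1]
      linarith
    · rw [inv_div]
      field_simp
      ring
  -- the finite sums are in `L^(al+2)`
  have hAE : ∀ (n : ℕ) (c : ℕ → ℝ),
      AEStronglyMeasurable (fun x => ∑ k ∈ Finset.range n, c k * b k x) μ := by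
    intro n c
    apply Finset.aestronglyMeasurable_fun_sum
    intro k _
    exact (Lp.aestronglyMeasurable (b k)).const_mul (c k)
  have hbnd : ∀ (n : ℕ) (c : ℕ → ℝ),
      eLpNorm (fun x => ∑ k ∈ Finset.range n, c k * b k x) (ENNReal.ofReal (al + 2)) μ ≤
        ENNReal.ofReal (C0 * Real.sqrt (∑ k ∈ Finset.range n, om k ^ 2 * c k ^ 2)) *
          μ Set.univ ^ (1 / (ENNReal.ofReal (al + 2)).toReal - 1 / (ENNReal.ofReal p).toReal) := by
    intro n c
    refine (eLpNorm_le_eLpNorm_mul_rpow_measure_univ hqp (hAE n c)).trans ?_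
    gcongr
    exact hC0 n c
  have hM : μ Set.univ ^ (1 / (ENNReal.ofReal (al + 2)).toReal - 1 / (ENNReal.ofReal p).toReal)
      ≠ ⊤ := by
    apply ENNReal.rpow_ne_top_of_nonneg
    · rw [ENNReal.toReal_ofReal hal2.le, ENNReal.toReal_ofReal hp0.le, sub_nonneg]
      exact one_div_le_one_div_of_le hal2 hp.le
    · exact measure_ne_top μ _
  have hmem : ∀ (n : ℕ) (c : ℕ → ℝ),
      MemLp (fun x => ∑ k ∈ Finset.range n, c k * b k x) (ENNReal.ofReal (al + 2)) μ := by
    intro n c
    refine ⟨hAE n c, lt_of_le_of_lt (hbnd n c) ?_⟩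
    exact ENNReal.mul_lt_top ENNReal.ofReal_lt_top (lt_top_iff_ne_top.mpr hM)
  have hbk : ∀ k : ℕ, MemLp (fun x => b k x) (ENNReal.ofReal (al + 2)) μ := by
    intro k
    have h := hmem (k + 1) (Pi.single k (1:ℝ))
    have he : (fun x => ∑ j ∈ Finset.range (k + 1), (Pi.single k (1:ℝ) : ℕ → ℝ) j * b j x) =
        fun x => b k x := by
      funext x
      rw [Finset.sum_eq_single k]
      · simp
      · intro j _ hj
        rw [Pi.single_eq_of_ne hj, zero_mul]
      · intro h
        exact absurd (Finset.mem_range.mpr (Nat.lt_succ_self k)) h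
    rwa [he] at h
  set M : ℝ := (μ Set.univ ^ (1 / (ENNReal.ofReal (al + 2)).toReal -
    1 / (ENNReal.ofReal p).toReal)).toReal with hMdef
  have hM0 : 0 ≤ M := ENNReal.toReal_nonneg
  refine ⟨a * (|C0| * M), by positivity, ?_⟩
  intro f hf n c
  -- `f` is in `L^(al+2)`
  have hfm : AEStronglyMeasurable (fun x => f x) μ := Lp.aestronglyMeasurable f
  set D : ℝ := (∫⁻ x, ENNReal.ofReal (|f x| ^ (al + 2)) ∂μ).toReal with hD
  have hDint : ∫ x, |f x| ^ (al + 2) ∂μ = D := by
    rw [hD, integral_eq_lintegral_of_nonneg_ae]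
    · exact Filter.Eventually.of_forall fun x => Real.rpow_nonneg (abs_nonneg _) _
    · exact (hfm.norm.aemeasurable.pow_const (al + 2)).aestronglyMeasurable
  have hgm : AEStronglyMeasurable (fun x => gf a al (f x)) μ := by
    unfold gf
    have h1 : AEMeasurable (fun x => f x) μ := hfm.aemeasurable
    exact ((((h1.norm).pow_const al).const_mul a).mul h1).aestronglyMeasurable
  have hgn : ∀ s : ℝ, ‖gf a al s‖ ^ ((al + 2) / (al + 1)) =
      a ^ ((al + 2) / (al + 1)) * |s| ^ (al + 2) := by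
    intro s
    have h1 : ‖gf a al s‖ = a * |s| ^ (al + 1) := by
      unfold gf
      rw [Real.norm_eq_abs, abs_mul, abs_mul, abs_of_pos ha,
        abs_of_nonneg (Real.rpow_nonneg (abs_nonneg s) al), mul_assoc,
        Real.rpow_add_one' (abs_nonneg s) hal1.ne']
    rw [h1, Real.mul_rpow ha.le (Real.rpow_nonneg (abs_nonneg s) _),
      ← Real.rpow_mul (abs_nonneg s)]
    congr 2
    field_simp
  have hgmem : MemLp (fun x => gf a al (f x)) (ENNReal.ofReal ((al + 2) / (al + 1))) μ := by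
    have hr0 : (0:ℝ) < (al + 2) / (al + 1) := by positivity
    refine ⟨hgm, ?_⟩
    rw [eLpNorm_lt_top_iff_lintegral_rpow_enorm_lt_top]
    · rw [ENNReal.toReal_ofReal hr0.le]
      have he : ∀ x, ‖gf a al (f x)‖ₑ ^ ((al + 2) / (al + 1)) =
          ENNReal.ofReal (a ^ ((al + 2) / (al + 1))) * ENNReal.ofReal (|f x| ^ (al + 2)) := by
        intro x
        rw [← ENNReal.ofReal_mul (Real.rpow_nonneg ha.le _), ← hgn (f x), ← ofReal_norm,
          ENNReal.ofReal_rpow_of_nonneg (norm_nonneg _) hr0.le]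
      simp_rw [he]
      rw [lintegral_const_mul' _ _ ENNReal.ofReal_ne_top]
      exact ENNReal.mul_lt_top ENNReal.ofReal_lt_top hf
    · rw [Ne, ENNReal.ofReal_eq_zero, not_le]
      exact hr0
    · exact ENNReal.ofReal_ne_top
  -- the sum of the integrals
  have hhc : ENNReal.HolderConjugate (ENNReal.ofReal ((al + 2) / (al + 1)))
      (ENNReal.ofReal (al + 2)) := hconj.ennrealOfReal
  have hint : ∀ k : ℕ, Integrable (fun x => gf a al (f x) * b k x) μ := by
    intro k
    exact hgmem.integrable_mul (hbk k)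
  set d : ℕ → ℝ := fun k => c k / om k with hd
  have hsum : ∑ k ∈ Finset.range n, c k / om k * ∫ x, gf a al (f x) * b k x ∂μ =
      ∫ x, gf a al (f x) * ∑ k ∈ Finset.range n, d k * b k x ∂μ := by
    have h1 : ∀ x, gf a al (f x) * ∑ k ∈ Finset.range n, d k * b k x =
        ∑ k ∈ Finset.range n, d k * (gf a al (f x) * b k x) := by
      intro x
      rw [Finset.mul_sum]
      refine Finset.sum_congr rfl fun k _ => ?_
      ring
    simp_rw [h1]
    rw [integral_finsetSum]
    · refine Finset.sum_congr rfl fun k _ => ?_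
      rw [integral_const_mul]
    · intro k _
      exact (hint k).const_mul (d k)
  rw [hsum]
  have hH := integral_mul_norm_le_Lp_mul_Lq hconj hgmem (hmem n d)
  have h1 : |∫ x, gf a al (f x) * ∑ k ∈ Finset.range n, d k * b k x ∂μ| ≤
      ∫ x, ‖gf a al (f x)‖ * ‖∑ k ∈ Finset.range n, d k * b k x‖ ∂μ := by
    rw [← Real.norm_eq_abs]
    refine (norm_integral_le_integral_norm _).trans (le_of_eq ?_)
    refine integral_congr_ae (Filter.Eventually.of_forall fun x => ?_)
    exact norm_mul _ _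
  refine h1.trans (hH.trans ?_)
  -- first factor
  have hF1 : (∫ x, ‖gf a al (f x)‖ ^ ((al + 2) / (al + 1)) ∂μ) ^ (1 / ((al + 2) / (al + 1))) =
      a * D ^ ((al + 1) / (al + 2)) := by
    have hD0 : 0 ≤ D := ENNReal.toReal_nonneg
    simp_rw [hgn]
    rw [integral_const_mul, hDint, one_div_div,
      Real.mul_rpow (Real.rpow_nonneg ha.le _) hD0, ← Real.rpow_mul ha.le]
    have he : (al + 2) / (al + 1) * ((al + 1) / (al + 2)) = 1 := by
      field_simp
    rw [he, Real.rpow_one]
  -- second factor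
  have hF2 : (∫ x, ‖∑ k ∈ Finset.range n, d k * b k x‖ ^ (al + 2) ∂μ) ^ (1 / (al + 2)) ≤
      |C0| * M * Real.sqrt (∑ k ∈ Finset.range n, c k ^ 2) := by
    have h2 := (hmem n d).eLpNorm_eq_integral_rpow_norm hq0 ENNReal.ofReal_ne_top
    rw [ENNReal.toReal_ofReal hal2.le] at h2
    have h3 := hbnd n d
    have h4 : ∑ k ∈ Finset.range n, om k ^ 2 * d k ^ 2 = ∑ k ∈ Finset.range n, c k ^ 2 := by
      refine Finset.sum_congr rfl fun k _ => ?_
      have := (hI.pos k).ne'
      simp only [hd]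
      field_simp
    rw [h4, h2] at h3
    have hS0 : 0 ≤ Real.sqrt (∑ k ∈ Finset.range n, c k ^ 2) := Real.sqrt_nonneg _
    have h5 : ENNReal.ofReal (C0 * Real.sqrt (∑ k ∈ Finset.range n, c k ^ 2)) ≤
        ENNReal.ofReal (|C0| * Real.sqrt (∑ k ∈ Finset.range n, c k ^ 2)) :=
      ENNReal.ofReal_le_ofReal (mul_le_mul_of_nonneg_right (le_abs_self C0) hS0)
    have h6 := h3.trans (mul_le_mul_left h5 _)
    rw [← ENNReal.ofReal_toReal hM, ← hMdef,
      ← ENNReal.ofReal_mul (mul_nonneg (abs_nonneg C0) hS0),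
      ENNReal.ofReal_le_ofReal_iff (mul_nonneg (mul_nonneg (abs_nonneg C0) hS0) hM0)] at h6
    rw [one_div]
    linarith
  rw [hF1]
  have hD0 : 0 ≤ D := ENNReal.toReal_nonneg
  have hDr : 0 ≤ D ^ ((al + 1) / (al + 2)) := Real.rpow_nonneg hD0 _
  calc a * D ^ ((al + 1) / (al + 2)) *
        (∫ x, ‖∑ k ∈ Finset.range n, d k * b k x‖ ^ (al + 2) ∂μ) ^ (1 / (al + 2)) ≤
      a * D ^ ((al + 1) / (al + 2)) *
        (|C0| * M * Real.sqrt (∑ k ∈ Finset.range n, c k ^ 2)) :=
        mul_le_mul_of_nonneg_left hF2 (mul_nonneg ha.le hDr)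
    _ = a * (|C0| * M) * D ^ ((al + 1) / (al + 2)) *
        Real.sqrt (∑ k ∈ Finset.range n, c k ^ 2) := by ring

end

end Pool.Agent.BEL.H23
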